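import Pool.Agent.H87.VA.Stm

set_option autoImplicit false

/-!
# Linear scale of a polygonal table
-/

namespace H16.VA

open MeasureTheory Set Metric Filter Topology H82.Bil H87.BP H87.VA

open scoped ComplexConjugate

variable (T : Table)

lemma h_sub_le (j : T.ι) (p z : ℂ) : |T.h j p - T.h j z| ≤ ‖p - z‖ * ‖T.d j‖ := by
  have h1 : T.h j p - T.h j z = ((p - z) * conj (T.d j)).im := by
    simp only [Table.h]
    rw [← Complex.sub_im]
    congr 1
    ring
  rw [h1]
  refine (Complex.abs_im_le_norm _).trans ?_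
  rw [norm_mul, Complex.norm_conj]

lemma infDist_le_seg {i : T.ι} {p : ℂ} (hp : p ∈ segment ℝ (T.a i) (T.b i)) :
    infDist p T.V ≤ ‖T.d i‖ := by
  refine (infDist_le_dist_of_mem (T.aV i)).trans ?_
  obtain ⟨τ, h0, h1, rfl⟩ := (T.mem_side i).1 hp
  rw [dist_eq_norm, add_sub_cancel_left, norm_mul, Complex.norm_real, Real.norm_eq_abs,
    abs_of_nonneg h0]
  exact mul_le_of_le_one_left (norm_nonneg _) h1

/-- two collinear sides with a common point lie on opposite sides of it -/
lemma opp {i j : T.ι} (hij : i ≠ j) {q : ℂ} (hqi : q ∈ segment ℝ (T.a i) (T.b i))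
    (hqj : q ∈ segment ℝ (T.a j) (T.b j)) {t s : ℝ}
    (hp : q + t * T.d i ∈ segment ℝ (T.a i) (T.b i))
    (hz : q + s * T.d i ∈ segment ℝ (T.a j) (T.b j)) : t * s ≤ 0 := by
  by_contra hts
  push Not at hts
  obtain ⟨m, hm0, l1, l2, hl1, hl1', hl2, hl2', e1, e2⟩ : ∃ m : ℝ, m ≠ 0 ∧ ∃ l1 l2 : ℝ,
      0 ≤ l1 ∧ l1 ≤ 1 ∧ 0 ≤ l2 ∧ l2 ≤ 1 ∧ m = l1 * t ∧ m = l2 * s := by
    have ht : t ≠ 0 := by rintro rfl; simp at hts
    have hs : s ≠ 0 := by rintro rfl; simp at hts
    rcases le_total |t| |s| with h | h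
    · refine ⟨t, ht, 1, t / s, zero_le_one, le_rfl, ?_, ?_, (one_mul t).symm, ?_⟩
      · rw [div_nonneg_iff]
        rcases pos_and_pos_or_neg_and_neg_of_mul_pos hts with ⟨a, b⟩ | ⟨a, b⟩
        · exact Or.inl ⟨a.le, b.le⟩
        · exact Or.inr ⟨a.le, b.le⟩
      · refine (le_abs_self _).trans ?_
        rw [abs_div]
        exact div_le_one_of_le₀ h (abs_nonneg _)
      · field_simp
    · refine ⟨s, hs, s / t, 1, ?_, ?_, zero_le_one, le_rfl, ?_, (one_mul s).symm⟩
      · rw [div_nonneg_iff]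
        rcases pos_and_pos_or_neg_and_neg_of_mul_pos hts with ⟨a, b⟩ | ⟨a, b⟩
        · exact Or.inl ⟨b.le, a.le⟩
        · exact Or.inr ⟨b.le, a.le⟩
      · refine (le_abs_self _).trans ?_
        rw [abs_div]
        exact div_le_one_of_le₀ h (abs_nonneg _)
      · field_simp
  have hsub : (fun l : ℝ => q + ((l * m : ℝ) : ℂ) * T.d i) '' Icc 0 1 ⊆ T.V := by
    rintro _ ⟨l, ⟨h0, h1⟩, rfl⟩
    refine T.inter i j hij ⟨?_, ?_⟩
    · have hc := (convex_segment (𝕜 := ℝ) (T.a i) (T.b i)) hqi hp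
        (a := 1 - l * l1) (b := l * l1) (by nlinarith) (by positivity) (by ring)
      have e : (1 - l * l1) • q + (l * l1) • (q + t * T.d i)
          = q + ((l * m : ℝ) : ℂ) * T.d i := by
        rw [e1]
        simp only [Complex.real_smul]
        push_cast
        ring
      rwa [e] at hc
    · have hc := (convex_segment (𝕜 := ℝ) (T.a j) (T.b j)) hqj hz
        (a := 1 - l * l2) (b := l * l2) (by nlinarith) (by positivity) (by ring)
      have e : (1 - l * l2) • q + (l * l2) • (q + s * T.d i)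
          = q + ((l * m : ℝ) : ℂ) * T.d i := by
        rw [e2]
        simp only [Complex.real_smul]
        push_cast
        ring
      rwa [e] at hc
  have hinf : ((fun l : ℝ => q + ((l * m : ℝ) : ℂ) * T.d i) '' Icc 0 1).Infinite := by
    refine (Icc_infinite (zero_lt_one (α := ℝ))).image ?_
    intro x _ y _ hxy
    have h1 := mul_right_cancel₀ (T.d_ne i) (add_left_cancel hxy)
    have h2 : x * m = y * m := by exact_mod_cast h1
    exact mul_right_cancel₀ hm0 h2
  exact hinf (T.Vfin.subset hsub)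

/-- two sides separate linearly -/
lemma pair (i j : T.ι) (hij : i ≠ j) : ∃ c : ℝ, 0 < c ∧
    ∀ p ∈ segment ℝ (T.a i) (T.b i),
      c * infDist p T.V ≤ infDist p (segment ℝ (T.a j) (T.b j)) := by
  have hd : 0 < ‖T.d i‖ := norm_pos_iff.2 (T.d_ne i)
  have hdj : 0 < ‖T.d j‖ := norm_pos_iff.2 (T.d_ne j)
  have hne : (segment ℝ (T.a j) (T.b j)).Nonempty := ⟨_, left_mem_segment ℝ _ _⟩
  by_cases hq : ∃ q, q ∈ segment ℝ (T.a i) (T.b i) ∧ q ∈ segment ℝ (T.a j) (T.b j)
  · obtain ⟨q, hqi, hqj⟩ := hq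
    have hqV : q ∈ T.V := T.inter i j hij ⟨hqi, hqj⟩
    -- enough: all distances are at least `c * dist p q`
    suffices hs : ∃ c : ℝ, 0 < c ∧ ∀ p ∈ segment ℝ (T.a i) (T.b i),
        ∀ z ∈ segment ℝ (T.a j) (T.b j), c * ‖p - q‖ ≤ ‖p - z‖ by
      obtain ⟨c, hc, hcc⟩ := hs
      refine ⟨c, hc, fun p hp => ?_⟩
      refine (mul_le_mul_of_nonneg_left (infDist_le_dist_of_mem hqV) hc.le).trans ?_
      refine (le_infDist hne).2 fun z hz => ?_
      rw [dist_eq_norm, dist_eq_norm]
      exact hcc p hp z hz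
    have hqij : T.h j q = 0 := T.h_side j hqj
    obtain ⟨τ₀, -, -, hτ₀⟩ := (T.mem_side i).1 hqi
    by_cases hpar : T.h' j (T.d i) = 0
    · refine ⟨1, one_pos, fun p hp z hz => ?_⟩
      obtain ⟨τ, -, -, hτ⟩ := (T.mem_side i).1 hp
      -- `d j` is a multiple of `d i`
      obtain ⟨r, hr⟩ : ∃ r : ℝ, T.d j = r * T.d i := by
        refine ⟨(T.d j * conj (T.d i)).re / Complex.normSq (T.d i), ?_⟩
        have hnn : (Complex.normSq (T.d i) : ℝ) ≠ 0 := by simpa using T.d_ne i
        have him : (T.d j * conj (T.d i)).im = 0 := by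
          have h1 : T.d j * conj (T.d i) = conj (T.d i * conj (T.d j)) := by
            simp [mul_comm]
          rw [h1, Complex.conj_im, neg_eq_zero]
          exact hpar
        have hre : (((T.d j) * conj (T.d i)).re : ℂ) = (T.d j) * conj (T.d i) := by
          apply Complex.ext
          · simp
          · rw [Complex.ofReal_im, him]
        push_cast
        rw [hre, ← Complex.mul_conj, mul_div_mul_right _ _ (T.conj_d_ne i),
          div_mul_cancel₀ _ (T.d_ne i)]
      obtain ⟨σ, -, -, hσ⟩ := (T.mem_side j).1 hz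
      obtain ⟨σ₀, -, -, hσ₀⟩ := (T.mem_side j).1 hqj
      have ep : p = q + ((τ - τ₀ : ℝ) : ℂ) * T.d i := by
        rw [hτ, hτ₀]; push_cast; ring
      have ez : z = q + (((σ - σ₀) * r : ℝ) : ℂ) * T.d i := by
        rw [hσ]
        conv_rhs => rw [hσ₀]
        rw [hr]; push_cast; ring
      rw [ep] at hp
      rw [ez] at hz
      have ho := opp T hij hqi hqj hp hz
      rw [ep, ez, one_mul, add_sub_cancel_left, add_sub_add_left_eq_sub, ← sub_mul,
        ← Complex.ofReal_sub, norm_mul, norm_mul, Complex.norm_real, Complex.norm_real]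
      refine mul_le_mul_of_nonneg_right ?_ (norm_nonneg _)
      rw [Real.norm_eq_abs, Real.norm_eq_abs]
      refine sq_le_sq.1 ?_
      nlinarith [sq_nonneg ((σ - σ₀) * r)]
    · have habs : 0 < |T.h' j (T.d i)| := abs_pos.2 hpar
      refine ⟨|T.h' j (T.d i)| / (‖T.d i‖ * ‖T.d j‖), by positivity, fun p hp z hz => ?_⟩
      obtain ⟨τ, -, -, hτ⟩ := (T.mem_side i).1 hp
      have ep : p = q + ((τ - τ₀ : ℝ) : ℂ) * T.d i := by
        rw [hτ, hτ₀]; push_cast; ring
      have h1 := h_sub_le T j p z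
      rw [T.h_side j hz, sub_zero] at h1
      have h2 : T.h j p = (τ - τ₀) * T.h' j (T.d i) := by
        rw [ep, T.h_add, hqij, zero_add]
      have h3 : ‖p - q‖ = |τ - τ₀| * ‖T.d i‖ := by
        rw [ep, add_sub_cancel_left, norm_mul, Complex.norm_real, Real.norm_eq_abs]
      rw [h2, abs_mul] at h1
      rw [h3, div_mul_eq_mul_div, div_le_iff₀ (by positivity)]
      nlinarith [h1, hd, abs_nonneg (τ - τ₀)]
  · push Not at hq
    have hcomp : IsCompact (segment ℝ (T.a i) (T.b i)) := by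
      rw [segment_eq_image]
      exact isCompact_Icc.image (by fun_prop)
    obtain ⟨p₀, hp₀, hmin⟩ := hcomp.exists_isMinOn ⟨_, left_mem_segment ℝ (T.a i) (T.b i)⟩
      (continuous_infDist_pt (segment ℝ (T.a j) (T.b j))).continuousOn
    have hpos : 0 < infDist p₀ (segment ℝ (T.a j) (T.b j)) :=
      ((T.side_closed j).notMem_iff_infDist_pos hne).1 (hq p₀ hp₀)
    refine ⟨infDist p₀ (segment ℝ (T.a j) (T.b j)) / ‖T.d i‖, by positivity, fun p hp => ?_⟩
    rw [div_mul_eq_mul_div, div_le_iff₀ hd]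
    exact mul_le_mul (hmin hp) (infDist_le_seg T hp) infDist_nonneg
      infDist_nonneg

/-- one constant for all pairs -/
lemma pairs : ∃ c : ℝ, 0 < c ∧ c ≤ 1 ∧ ∀ i j : T.ι, i ≠ j →
    ∀ p ∈ segment ℝ (T.a i) (T.b i),
      c * infDist p T.V ≤ infDist p (segment ℝ (T.a j) (T.b j)) := by
  classical
  have := T.fin
  have : Fintype T.ι := Fintype.ofFinite _
  have hall : ∀ x : T.ι × T.ι, ∃ c : ℝ, 0 < c ∧ (x.1 ≠ x.2 →
      ∀ p ∈ segment ℝ (T.a x.1) (T.b x.1),
        c * infDist p T.V ≤ infDist p (segment ℝ (T.a x.2) (T.b x.2))) := by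
    intro x
    by_cases hx : x.1 = x.2
    · exact ⟨1, one_pos, fun h => absurd hx h⟩
    · obtain ⟨c, hc, h⟩ := pair T x.1 x.2 hx
      exact ⟨c, hc, fun _ => h⟩
  choose c hc hcc using hall
  obtain ⟨c0, hc0, hc0'⟩ : ∃ c0 : ℝ, 0 < c0 ∧ ∀ x, c0 ≤ c x := by
    rcases isEmpty_or_nonempty (T.ι × T.ι) with he | he
    · exact ⟨1, one_pos, fun x => (he.false x).elim⟩
    · obtain ⟨x0, hx0⟩ := Finite.exists_min c
      exact ⟨c x0, hc x0, hx0⟩
  refine ⟨min c0 1, lt_min hc0 one_pos, min_le_right _ _, ?_⟩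
  intro i j hij p hp
  refine le_trans ?_ (hcc (i, j) hij p hp)
  exact mul_le_mul_of_nonneg_right ((min_le_left _ _).trans (hc0' (i, j))) infDist_nonneg

/-- linear scale -/
theorem pieceG1 : PieceG1 := by
  intro T
  obtain ⟨c, hc, hc1, hcc⟩ := pairs T
  refine ⟨c / 8, by positivity, by linarith, ?_⟩
  intro x hx
  set D := infDist x T.V with hD
  have hD0 : 0 ≤ D := infDist_nonneg
  rcases hD0.eq_or_lt with h0 | h0
  · left
    rw [← h0, mul_zero, ball_zero]
    exact empty_subset _
  by_cases hside : ∃ i : T.ι, ∃ p, p ∈ segment ℝ (T.a i) (T.b i) ∧ p ∈ ball x (c / 8 * D)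
  · right
    obtain ⟨i, p, hp, hpx⟩ := hside
    have hdist : dist x p < c / 8 * D := by rw [dist_comm]; exact hpx
    have hpV : D / 2 ≤ infDist p T.V := by
      have h1 : infDist x T.V ≤ infDist p T.V + dist x p := infDist_le_infDist_add_dist
      have h2 : c / 8 * D ≤ D / 8 := by nlinarith
      rw [← hD] at h1
      linarith
    have hδ : 0 < c * (D / 2) := by positivity
    have hδ1 : c * (D / 2) ≤ D / 2 := by nlinarith
    refine ⟨i, p, c * (D / 2), ⟨hδ, T.h_side i hp, ?_, ?_⟩, ?_⟩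
    · intro z hz h0'
      have hzV : ∀ v ∈ T.V, c * (D / 2) ≤ dist p v := fun v hv =>
        (hδ1.trans hpV).trans (infDist_le_dist_of_mem hv)
      refine ⟨?_, fun h => ?_⟩
      · obtain ⟨τ, rfl⟩ := T.line_param i h0'
        obtain ⟨σ, hσ0, hσ1, hσ⟩ := (T.mem_side i).1 hp
        have hd : 0 < ‖T.d i‖ := norm_pos_iff.2 (T.d_ne i)
        have h1 : |τ - σ| * ‖T.d i‖ < c * (D / 2) := by
          have h2 := mem_ball_iff_norm.1 hz
          have h3 : T.a i + ↑τ * T.d i - p = ((τ - σ : ℝ) : ℂ) * T.d i := by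
            rw [hσ]; push_cast; ring
          rwa [h3, norm_mul, Complex.norm_real, Real.norm_eq_abs] at h2
        have ha := hzV _ (T.aV i)
        have hb := hzV _ (T.bV i)
        have ea : dist p (T.a i) = σ * ‖T.d i‖ := by
          rw [dist_eq_norm, hσ, add_sub_cancel_left, norm_mul, Complex.norm_real,
            Real.norm_eq_abs, abs_of_nonneg hσ0]
        have eb : dist p (T.b i) = (1 - σ) * ‖T.d i‖ := by
          have h3 : p - T.b i = -(((1 - σ : ℝ) : ℂ) * T.d i) := by
            rw [hσ]; simp only [Table.d]; push_cast; ring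
          rw [dist_eq_norm, h3, norm_neg, norm_mul, Complex.norm_real, Real.norm_eq_abs,
            abs_of_nonneg (by linarith)]
        rw [ea] at ha
        rw [eb] at hb
        have h4 : |τ - σ| < σ := lt_of_mul_lt_mul_right (h1.trans_le ha) hd.le
        have h5 : |τ - σ| < 1 - σ := lt_of_mul_lt_mul_right (h1.trans_le hb) hd.le
        rw [T.mem_side]
        rw [abs_lt] at h4 h5
        exact ⟨τ, by linarith [h4.1], by linarith [h5.2], rfl⟩
      · have h1 := hzV z h
        rw [mem_ball, dist_comm] at hz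
        linarith
    · intro z hz h0' hf
      rw [T.front, mem_iUnion] at hf
      obtain ⟨j, hj⟩ := hf
      by_cases hji : i = j
      · subst hji; exact h0' (T.h_side i hj)
      · have h1 := hcc i j hji p hp
        have h2 : infDist p (segment ℝ (T.a j) (T.b j)) ≤ dist p z := infDist_le_dist_of_mem hj
        have h3 : c * (D / 2) ≤ c * infDist p T.V := mul_le_mul_of_nonneg_left hpV hc.le
        rw [mem_ball, dist_comm] at hz
        linarith
    · intro z hz
      rw [mem_ball] at *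
      have h1 := dist_triangle z x p
      have h2 : c / 8 * D + c / 8 * D ≤ c * (D / 2) := by nlinarith
      linarith
  · left
    push Not at hside
    have hsub : ball x (c / 8 * D) ⊆ T.U ∪ (closure T.U)ᶜ := by
      intro w hw
      by_cases hcl : w ∈ closure T.U
      · left
        by_contra hn
        have hf : w ∈ frontier T.U := ⟨hcl, by rwa [T.isOpen.interior_eq]⟩
        rw [T.front, mem_iUnion] at hf
        obtain ⟨j, hj⟩ := hf
        exact hside j w hj hw
      · exact Or.inr hcl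
    exact IsPreconnected.subset_left_of_subset_union T.isOpen isClosed_closure.isOpen_compl
      (disjoint_left.2 fun w hw hw' => hw' (subset_closure hw)) hsub
      ⟨x, mem_ball_self (by positivity), hx⟩ (convex_ball x _).isPreconnected

end H16.VA
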